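import Pool.Agent.N557.QW.Stm

/-!
# An injective homomorphism `G → Γ` induces `L(G) → L(Γ)`
-/

set_option autoImplicit false

namespace Pool.Agent.N2.QWP

open Pool.Agent.H494R3.GT Pool.Agent.N557.QW

noncomputable section

section perm

variable {P R : Type} {e : P → R}

/-- The isometry `dl p ↦ dl (e p)`. -/
def VV (he : Function.Injective e) : L2 P →ₗᵢ[ℂ] L2 R :=
  (dl_orthonormal he).orthogonalFamily.linearIsometry

lemma VV_dl (he : Function.Injective e) (p : P) : VV he (dl p) = dl (e p) := by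
  classical
  rw [VV, dl, dl]
  simp [dl]

/-- The same as a continuous linear map. -/
def VC (he : Function.Injective e) : L2 P →L[ℂ] L2 R := (VV he).toContinuousLinearMap

lemma VC_dl (he : Function.Injective e) (p : P) : VC he (dl p) = dl (e p) := VV_dl he p

lemma VC_inner (he : Function.Injective e) (v w : L2 P) :
    inner ℂ (VC he v) (VC he w) = inner ℂ v w := (VV he).inner_map_map v w

lemma adj_VC (he : Function.Injective e) (v : L2 P) :
    ContinuousLinearMap.adjoint (VC he) (VC he v) = v := by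
  refine ext_inner_left ℂ fun w => ?_
  rw [ContinuousLinearMap.adjoint_inner_right, VC_inner]

lemma VC_adj (he : Function.Injective e) (hs : Function.Surjective e) :
    (VC he).comp (ContinuousLinearMap.adjoint (VC he)) = 1 := by
  refine op_ext fun γ => ?_
  obtain ⟨p, rfl⟩ := hs γ
  rw [ContinuousLinearMap.comp_apply, ← VC_dl he, adj_VC]
  rfl

end perm

section diag

variable {Q G : Type}

/-- The diagonal operator. -/
def DD (x : L2 G →L[ℂ] L2 G) : L2 (Σ _ : Q, G) →L[ℂ] L2 (Σ _ : Q, G) :=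
  dsum (X := fun _ : Q => G) (fun _ => x) ‖x‖ (fun _ => le_rfl) (norm_nonneg _)

lemma rs_DD (x : L2 G →L[ℂ] L2 G) (v : L2 (Σ _ : Q, G)) (b : Q) : rs b (DD x v) = x (rs b v) :=
  rs_dsum _ _ _ _ v b

lemma rs_smul' (b : Q) (c : ℂ) (v : L2 (Σ _ : Q, G)) : rs b (c • v) = c • rs b v := rs_smul b c v

lemma DD_one : DD (Q := Q) (1 : L2 G →L[ℂ] L2 G) = 1 := by
  ext1 v
  refine rs_ext fun b => ?_
  rw [rs_DD]; rfl

lemma DD_zero : DD (Q := Q) (0 : L2 G →L[ℂ] L2 G) = 0 := by
  ext1 v
  refine rs_ext fun b => ?_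
  rw [rs_DD]; rfl

lemma DD_mul (x y : L2 G →L[ℂ] L2 G) : DD (Q := Q) (x * y) = DD x * DD y := by
  ext1 v
  refine rs_ext fun b => ?_
  rw [mul_ap, rs_DD, rs_DD, rs_DD, mul_ap]

lemma DD_add (x y : L2 G →L[ℂ] L2 G) : DD (Q := Q) (x + y) = DD x + DD y := by
  ext1 v
  refine rs_ext fun b => ?_
  rw [add_apply, rs_add, rs_DD, rs_DD, rs_DD, add_apply]

lemma DD_smul (c : ℂ) (x : L2 G →L[ℂ] L2 G) : DD (Q := Q) (c • x) = c • DD x := by
  ext1 v
  refine rs_ext fun b => ?_
  rw [smul_apply, rs_smul, rs_DD, rs_DD, smul_apply]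

lemma DD_star (x : L2 G →L[ℂ] L2 G) : DD (Q := Q) (star x) = star (DD x) := by
  rw [ContinuousLinearMap.star_eq_adjoint, ContinuousLinearMap.star_eq_adjoint,
    ContinuousLinearMap.eq_adjoint_iff]
  intro v w
  have h1 := inner_sigma (DD (ContinuousLinearMap.adjoint x) v) w
  have h2 := inner_sigma v (DD x w)
  simp only [rs_DD, ContinuousLinearMap.adjoint_inner_left] at h1 h2
  exact h1.unique h2

lemma DD_coef (x : L2 G →L[ℂ] L2 G) (q q' : Q) (g g' : G) [Decidable (q = q')] :
    inner ℂ (dl (⟨q', g'⟩ : Σ _ : Q, G)) (DD x (dl (⟨q, g⟩ : Σ _ : Q, G))) =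
      if q = q' then inner ℂ (dl g') (x (dl g)) else 0 := by
  rw [inner_dl, ← rs_apply, rs_DD]
  split_ifs with h
  · subst h
    rw [rs_dl_self, inner_dl]
  · rw [rs_dl_ne (Ne.symm h), map_zero]
    rfl

end diag

section grp

variable {G Γ : Type} [Group G] [Group Γ] (f : G →* Γ)

/-- The right cosets of the image. -/
abbrev QQ : Type := Quotient (QuotientGroup.rightRel f.range)

/-- The bijection `(q, g) ↦ f g * rep q`. -/
def ee (x : Σ _ : QQ f, G) : Γ := f x.2 * x.1.out

lemma mk_ee (x : Σ _ : QQ f, G) : (Quotient.mk _ (ee f x) : QQ f) = x.1 := by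
  conv_rhs => rw [← Quotient.out_eq x.1]
  refine Quotient.sound ?_
  change QuotientGroup.rightRel f.range _ _
  rw [QuotientGroup.rightRel_apply]
  refine ⟨x.2⁻¹, ?_⟩
  rw [ee, map_inv]
  group

lemma ee_inj (hf : Function.Injective f) : Function.Injective (ee f) := by
  intro x y h
  have h1 : x.1 = y.1 := by rw [← mk_ee f x, h, mk_ee]
  obtain ⟨q, g⟩ := x
  obtain ⟨q', g'⟩ := y
  simp only at h1
  subst h1
  simp only [ee, mul_left_inj] at h
  rw [hf h]

lemma ee_surj : Function.Surjective (ee f) := by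
  intro γ
  have h : QuotientGroup.rightRel f.range (Quotient.mk (QuotientGroup.rightRel f.range) γ).out γ :=
    Quotient.exact (Quotient.out_eq _)
  rw [QuotientGroup.rightRel_apply] at h
  obtain ⟨g, hg⟩ := h
  refine ⟨⟨Quotient.mk _ γ, g⟩, ?_⟩
  rw [ee, hg]
  group

variable {f}

/-- The amplification. -/
def am (hf : Function.Injective f) (x : L2 G →L[ℂ] L2 G) : L2 Γ →L[ℂ] L2 Γ :=
  ((VC (ee_inj f hf)).comp (DD x)).comp (ContinuousLinearMap.adjoint (VC (ee_inj f hf)))

lemma am_apply (hf : Function.Injective f) (x : L2 G →L[ℂ] L2 G) (v : L2 Γ) :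
    am hf x v =
      VC (ee_inj f hf) (DD x (ContinuousLinearMap.adjoint (VC (ee_inj f hf)) v)) := rfl

lemma am_one (hf : Function.Injective f) : am hf (1 : L2 G →L[ℂ] L2 G) = 1 := by
  rw [am, DD_one]
  exact VC_adj (ee_inj f hf) (ee_surj f)

lemma am_zero (hf : Function.Injective f) : am hf (0 : L2 G →L[ℂ] L2 G) = 0 := by
  ext1 v
  rw [am_apply, DD_zero]
  simp

lemma am_mul (hf : Function.Injective f) (x y : L2 G →L[ℂ] L2 G) :
    am hf (x * y) = am hf x * am hf y := by
  ext1 v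
  rw [mul_ap, am_apply, am_apply, am_apply, adj_VC, DD_mul, mul_ap]

lemma am_add (hf : Function.Injective f) (x y : L2 G →L[ℂ] L2 G) :
    am hf (x + y) = am hf x + am hf y := by
  ext1 v
  rw [add_apply, am_apply, am_apply, am_apply, DD_add, add_apply, map_add]

lemma am_smul (hf : Function.Injective f) (c : ℂ) (x : L2 G →L[ℂ] L2 G) :
    am hf (c • x) = c • am hf x := by
  ext1 v
  rw [smul_apply, am_apply, am_apply, DD_smul,
    smul_apply, map_smul]

lemma am_star (hf : Function.Injective f) (x : L2 G →L[ℂ] L2 G) :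
    am hf (star x) = star (am hf x) := by
  rw [am, am, DD_star, ContinuousLinearMap.star_eq_adjoint, ContinuousLinearMap.star_eq_adjoint,
    ContinuousLinearMap.adjoint_comp, ContinuousLinearMap.adjoint_comp,
    ContinuousLinearMap.adjoint_adjoint, ContinuousLinearMap.comp_assoc]

lemma am_coef (hf : Function.Injective f) (x : L2 G →L[ℂ] L2 G) (p p' : Σ _ : QQ f, G)
    [Decidable (p.1 = p'.1)] :
    inner ℂ (dl (ee f p')) (am hf x (dl (ee f p))) =
      if p.1 = p'.1 then inner ℂ (dl p'.2) (x (dl p.2)) else 0 := by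
  rw [am_apply, ← VC_dl (ee_inj f hf), ← VC_dl (ee_inj f hf), adj_VC, VC_inner]
  exact DD_coef x p.1 p'.1 p.2 p'.2

lemma am_coef_range (hf : Function.Injective f) {x : L2 G →L[ℂ] L2 G} (hx : x ∈ LG G) (s t : Γ)
    (g : G) (h : t * s⁻¹ = f g) : inner ℂ (dl t) (am hf x (dl s)) = cf x g := by
  classical
  obtain ⟨p, rfl⟩ := ee_surj f s
  have ht : t = ee f ⟨p.1, g * p.2⟩ := by
    rw [mul_inv_eq_iff_eq_mul] at h
    rw [h, ee, ee, map_mul, mul_assoc]
  rw [ht, am_coef, if_pos rfl, mem_LG_iff.1 hx, mul_inv_cancel_right]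

lemma am_coef_notRange (hf : Function.Injective f) (x : L2 G →L[ℂ] L2 G) (s t : Γ)
    (h : t * s⁻¹ ∉ Set.range f) : inner ℂ (dl t) (am hf x (dl s)) = 0 := by
  classical
  obtain ⟨p, rfl⟩ := ee_surj f s
  obtain ⟨p', rfl⟩ := ee_surj f t
  rw [am_coef, if_neg]
  intro hq
  apply h
  refine ⟨p'.2 * p.2⁻¹, ?_⟩
  rw [ee, ee, hq, map_mul, map_inv]
  group

lemma am_cf_range (hf : Function.Injective f) {x : L2 G →L[ℂ] L2 G} (hx : x ∈ LG G) (g : G) :
    cf (am hf x) (f g) = cf x g :=
  am_coef_range hf hx 1 (f g) g (by rw [inv_one, mul_one])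

lemma am_cf_notRange (hf : Function.Injective f) (x : L2 G →L[ℂ] L2 G) (γ : Γ)
    (h : γ ∉ Set.range f) : cf (am hf x) γ = 0 :=
  am_coef_notRange hf x 1 γ (by rwa [inv_one, mul_one])

lemma am_mem (hf : Function.Injective f) {x : L2 G →L[ℂ] L2 G} (hx : x ∈ LG G) :
    am hf x ∈ LG Γ := by
  rw [mem_LG_iff]
  intro s t
  by_cases h : t * s⁻¹ ∈ Set.range f
  · obtain ⟨g, hg⟩ := h
    rw [am_coef_range hf hx s t g hg.symm, ← hg, am_cf_range hf hx]
  · rw [am_coef_notRange hf x s t h, am_cf_notRange hf x _ h]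

end grp

theorem t_amp : S_AMP := by
  intro G Γ _ _ f hf
  refine ⟨{ toFun := fun x => am hf x.1
            map_one' := am_one hf
            map_mul' := fun x y => am_mul hf x.1 y.1
            map_zero' := am_zero hf
            map_add' := fun x y => am_add hf x.1 y.1
            commutes' := fun c => ?_
            map_star' := fun x => am_star hf x.1 }, ?_, ?_, ?_⟩
  · have h1 : ((algebraMap ℂ (LG G).toStarSubalgebra c).1 : L2 G →L[ℂ] L2 G) = c • 1 := by
      rw [Algebra.algebraMap_eq_smul_one]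
      rfl
    rw [h1, am_smul, am_one, Algebra.algebraMap_eq_smul_one]
  · exact fun x => am_mem hf x.2
  · exact fun x g => am_cf_range hf x.2 g
  · exact fun x γ h => am_cf_notRange hf x.1 γ h

end

end Pool.Agent.N2.QWP
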